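import Mathlib
import Pool.Agent.Lib.MP_a2e83c_al.Univ

namespace Pool.Agent.Results.MP_a2e83c_al.Full

/-- There is a countable locally finite group `G` acting by affine isometries on a separable real
Banach space `X` such that every action by isometries of a countable locally finite group `H` on a
separable real normed space `Y` (complete or not) embeds into it: there are a subgroup `H'` of `G`,
an isomorphism `ι : H ≃* H'` and an affine isometric embedding `φ : Y →ᵃⁱ[ℝ] X` which is
`H`-equivariant via `ι`. -/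
theorem result.{u, v} :
    ∃ (G : Type) (_ : Group G) (X : Type) (_ : NormedAddCommGroup X) (_ : NormedSpace ℝ X)
      (_ : MulAction G X),
      Countable G ∧ (∀ K : Subgroup G, K.FG → Finite K) ∧
      CompleteSpace X ∧ TopologicalSpace.SeparableSpace X ∧
      (∀ g : G, ∃ A : X ≃ᵃⁱ[ℝ] X, ∀ x : X, g • x = A x) ∧
      ∀ (H : Type u) [Group H] [Countable H], (∀ K : Subgroup H, K.FG → Finite K) →
        ∀ (Y : Type v) [NormedAddCommGroup Y] [NormedSpace ℝ Y]
          [TopologicalSpace.SeparableSpace Y] [MulAction H Y],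
          (∀ h : H, Isometry (fun y : Y => h • y)) →
          ∃ (H' : Subgroup G) (ι : H ≃* H') (φ : Y →ᵃⁱ[ℝ] X),
            ∀ (h : H) (y : Y), φ (h • y) = (ι h : G) • φ y := by
  obtain ⟨G, iG, X, iX1, iX2, iX3, hGc, hGf, hXc, hXs, hXi, hU⟩ := UnivAct.universal_action.{u, v}
  refine ⟨G, iG, X, iX1, iX2, iX3, hGc, hGf, hXc, hXs, ?_, ?_⟩
  · intro g
    have : IsIsometricSMul G X := ⟨hXi⟩
    exact ⟨(IsometryEquiv.constSMul g : X ≃ᵢ X).toRealAffineIsometryEquiv, fun x => rfl⟩
  · intro H _ _ hH Y _ _ _ _ hY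
    obtain ⟨ι, φ, hι, h⟩ := hU H hH Y hY
    exact ⟨ι.range, MonoidHom.ofInjective hι, φ, h⟩

end Pool.Agent.Results.MP_a2e83c_al.Full
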